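import Pool.Agent.helper80.SV.Spec3
import Pool.Agent.helper52.SV.LOW

/-! sv:Z0, line bundles with some degree zero. -/

set_option autoImplicit false
set_option linter.unusedSectionVars false

namespace Pool.Agent.SV

open MvPolynomial Module

theorem Z0_Dk {k : ℕ} (n d : Fin k → ℕ) :
    Dk (Sigma.fst : Var n → Fin k) Finset.univ d =
      1 + ∑ i ∈ Finset.univ.filter (fun i => 1 ≤ d i), n i := by
  unfold Dk
  congr 1
  refine Finset.sum_congr rfl fun i _ => ?_
  rw [LOW_card]
  rfl

theorem Z0_low (hRKU : RKU_stmt) (hEUL : EUL_stmt) (hMHS : MHS_stmt) (k : ℕ) (n d : Fin k → ℕ)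
    (i0 : Fin k) (hi0 : 1 ≤ d i0) (r : ℕ) (p : Fin r → Var n → ℂ) :
    finrank ℂ (MultiHom n d) - r * (Dk (Sigma.fst : Var n → Fin k) Finset.univ d) ≤
      finrank ℂ (Sys n d p) := by
  have hM := hMHS k n d
  set M := Sec (Sigma.fst : Var n → Fin k) Finset.univ d with hMdef
  set Φ : Fin r → M →ₗ[ℂ] (Var n → ℂ) := fun l =>
    Phi1 (Sigma.fst : Var n → Fin k) Finset.univ d false (p l) with hΦ
  have hne : ∀ i : Fin k, ∃ v ∈ (Finset.univ : Finset (Var n)), Sigma.fst v = i :=
    fun i => ⟨⟨i, 0⟩, Finset.mem_univ _, rfl⟩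
  have hrank : ∀ l, finrank ℂ (LinearMap.range (Φ l)) ≤
      Dk (Sigma.fst : Var n → Fin k) Finset.univ d := by
    intro l
    exact (hRKU (Sigma.fst : Var n → Fin k) Finset.univ Finset.univ d (Finset.Subset.refl _)
      hne (p l)).1
  have hker : ∀ l, finrank ℂ M ≤ finrank ℂ (LinearMap.ker (Φ l)) +
      (Dk (Sigma.fst : Var n → Fin k) Finset.univ d) := by
    intro l
    have h1 := LinearMap.finrank_range_add_finrank_ker (Φ l)
    have h2 := hrank l
    omega
  have hinf := LOW_inf (fun l => LinearMap.ker (Φ l)) _ hker Finset.univ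
  rw [Finset.card_univ, Fintype.card_fin] at hinf
  have hle : (⨅ l ∈ (Finset.univ : Finset (Fin r)), LinearMap.ker (Φ l)).map M.subtype ≤
      Sys n d p := by
    rintro _ ⟨f, hf, rfl⟩
    have hf' : ∀ l, Φ l f = 0 := by
      intro l
      have h1 : f ∈ ⨅ l ∈ (Finset.univ : Finset (Fin r)), LinearMap.ker (Φ l) := hf
      simp only [Submodule.mem_iInf, LinearMap.mem_ker] at h1
      exact h1 l (Finset.mem_univ l)
    have hgrad : ∀ l v, eval (p l) (pderiv v (f : MvPolynomial (Var n) ℂ)) = 0 := by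
      intro l v
      have h1 := congrFun (hf' l) v
      have h2 : Φ l f v = gradL Finset.univ (cut Finset.univ (p l)) (f : MvPolynomial (Var n) ℂ) v := by
        simp [hΦ, Phi1]
      rw [h2, gradL_apply, if_pos (Finset.mem_univ v)] at h1
      have h3 : cut Finset.univ (p l) = p l := by
        funext i
        simp [cut]
      rw [h3] at h1
      simpa using h1
    change (f : MvPolynomial (Var n) ℂ) ∈ Sys n d p
    unfold Sys
    rw [Submodule.mem_inf]
    refine ⟨by rw [hM]; exact f.2, ?_⟩
    rw [Submodule.mem_iInf]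
    intro l
    refine ⟨?_, hgrad l⟩
    have h4 := hEUL (Sigma.fst : Var n → Fin k) Finset.univ d f f.2 i0 (p l)
    rw [Finset.sum_eq_zero fun v _ => by rw [hgrad l v, mul_zero]] at h4
    have h5 : ((d i0 : ℕ) : ℂ) ≠ 0 := by
      exact_mod_cast (by omega : d i0 ≠ 0)
    exact (mul_eq_zero.1 h4.symm).resolve_left h5
  have hfin : Module.Finite ℂ ↥(Sys n d p) := by
    have h1 : Sys n d p ≤ M := by
      rw [← hM]
      exact inf_le_left
    exact Module.Finite.of_injective (Submodule.inclusion h1) (Submodule.inclusion_injective h1)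
  have h6 := Submodule.finrank_mono hle
  rw [Submodule.finrank_map_subtype_eq] at h6
  rw [hM]
  exact le_trans (Nat.sub_le_iff_le_add.2 hinf) h6

theorem Z0_mc1 (n d : ℕ) (hd : 1 ≤ d) : n + 1 ≤ Nat.multichoose (n + 1) d := by
  induction d with
  | zero => omega
  | succ d ih =>
    by_cases h : d = 0
    · subst h
      simp
    · rw [Nat.multichoose_succ_succ]
      have := ih (by omega)
      omega

theorem Z0_mc2 (n d : ℕ) (hn : 1 ≤ n) (hd : 2 ≤ d) : n + 2 ≤ Nat.multichoose (n + 1) d := by
  obtain ⟨e, rfl⟩ : ∃ e, d = e + 1 := ⟨d - 1, by omega⟩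
  obtain ⟨m, rfl⟩ : ∃ m, n = m + 1 := ⟨n - 1, by omega⟩
  rw [Nat.multichoose_succ_succ]
  have h1 := Z0_mc1 (m + 1) e (by omega)
  have h2 := Z0_mc1 m (e + 1) (by omega)
  omega

theorem Z0_prod {ι : Type} (s : Finset ι) (a : ι → ℕ) :
    1 + ∑ i ∈ s, a i ≤ ∏ i ∈ s, (1 + a i) := by
  classical
  induction s using Finset.induction_on with
  | empty => simp
  | insert x s hx ih =>
    rw [Finset.sum_insert hx, Finset.prod_insert hx]
    nlinarith [Nat.zero_le (a x * ∑ i ∈ s, a i)]

theorem Z0_dim (hDIM : DIM_stmt) (hMHS : MHS_stmt) (k : ℕ) (n d : Fin k → ℕ) :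
    finrank ℂ (MultiHom n d) = ∏ i, Nat.multichoose (n i + 1) (d i) := by
  rw [hMHS k n d, hDIM (Sigma.fst : Var n → Fin k) Finset.univ d]
  refine Finset.prod_congr rfl fun i _ => ?_
  rw [LOW_card]

theorem Z0_big {k : ℕ} (n d : Fin k → ℕ) (hn : ∀ i, 1 ≤ n i) (i0 : Fin k) (hi0 : 1 ≤ d i0)
    (h2 : 2 ≤ ∑ i, d i) :
    2 + ∑ i ∈ Finset.univ.filter (fun i => 1 ≤ d i), n i ≤
      ∏ i, Nat.multichoose (n i + 1) (d i) := by
  classical
  obtain ⟨a, ha⟩ : ∃ a : Fin k → ℕ, ∀ i, Nat.multichoose (n i + 1) (d i) = 1 + a i := by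
    refine ⟨fun i => Nat.multichoose (n i + 1) (d i) - 1, fun i => ?_⟩
    have : 1 ≤ Nat.multichoose (n i + 1) (d i) := by
      by_cases h : d i = 0
      · rw [h]
        simp
      · have := Z0_mc1 (n i) (d i) (by omega)
        omega
    change Nat.multichoose (n i + 1) (d i) = 1 + (Nat.multichoose (n i + 1) (d i) - 1)
    omega
  have hab : ∀ i, (if 1 ≤ d i then n i else 0) ≤ a i := by
    intro i
    by_cases h : 1 ≤ d i
    · rw [if_pos h]
      have h3 := Z0_mc1 (n i) (d i) h
      have h4 := ha i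
      omega
    · rw [if_neg h]
      omega
  rw [Finset.sum_filter]
  have h5 : ∏ i, Nat.multichoose (n i + 1) (d i) = ∏ i, (1 + a i) :=
    Finset.prod_congr rfl fun i _ => ha i
  rw [h5, ← Finset.mul_prod_erase Finset.univ (fun i => 1 + a i) (Finset.mem_univ i0),
    ← Finset.add_sum_erase Finset.univ (fun i => if 1 ≤ d i then n i else 0) (Finset.mem_univ i0)]
  have h6 := Z0_prod (Finset.univ.erase i0) a
  have h7 : ∑ i ∈ Finset.univ.erase i0, (if 1 ≤ d i then n i else 0) ≤
      ∑ i ∈ Finset.univ.erase i0, a i := Finset.sum_le_sum fun i _ => hab i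
  have h8 := hab i0
  rw [if_pos hi0] at h8
  have h9 := hn i0
  by_cases hS : ∑ i ∈ Finset.univ.erase i0, a i = 0
  · have h10 : ∀ i ∈ Finset.univ.erase i0, d i = 0 := by
      intro i hi
      have h11 := (Finset.sum_eq_zero_iff.1 hS) i hi
      have h12 := hab i
      by_contra hd
      rw [if_pos (by omega)] at h12
      have := hn i
      omega
    have h13 : ∑ i, d i = d i0 := by
      rw [← Finset.add_sum_erase Finset.univ d (Finset.mem_univ i0), Finset.sum_eq_zero h10]
      rfl
    rw [h13] at h2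
    have h14 := Z0_mc2 (n i0) (d i0) (hn i0) h2
    have h15 := ha i0
    simp only [if_pos hi0]
    nlinarith
  · have hS1 : 1 ≤ ∑ i ∈ Finset.univ.erase i0, a i := Nat.one_le_iff_ne_zero.2 hS
    simp only [if_pos hi0]
    have ha1 : 1 ≤ a i0 := le_trans h9 h8
    have hmul : 1 ≤ a i0 * ∑ i ∈ Finset.univ.erase i0, a i := Nat.one_le_iff_ne_zero.2
      (Nat.mul_ne_zero (by omega) hS)
    nlinarith

theorem Z0_tot {k : ℕ} {n d : Fin k → ℕ} {f : MvPolynomial (Var n) ℂ} (hf : f ∈ MultiHom n d)
    {m : Var n →₀ ℕ} (hm : coeff m f ≠ 0) : ∑ v, m v = ∑ i, d i := by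
  have h : ∀ i, ∑ j : Fin (n i + 1), m ⟨i, j⟩ = d i := hf m hm
  rw [Fintype.sum_sigma]
  exact Finset.sum_congr rfl fun i _ => h i

theorem Z0_small {k : ℕ} {n d : Fin k → ℕ} (hd : ∑ i, d i ≤ 1) {f : MvPolynomial (Var n) ℂ}
    (hf : f ∈ MultiHom n d) (x : Var n → ℂ) (h0 : eval x f = 0)
    (h1 : ∀ v, eval x (pderiv v f) = 0) : f = 0 := by
  classical
  ext m
  rw [coeff_zero]
  by_contra hm
  have ht := Z0_tot hf hm
  by_cases hz : ∑ i, d i = 0
  · have hm0 : ∀ m' : Var n →₀ ℕ, coeff m' f ≠ 0 → m' = 0 := by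
      intro m' hm'
      have h2 := Z0_tot hf hm'
      rw [hz] at h2
      ext v
      exact (Finset.sum_eq_zero_iff.1 h2) v (Finset.mem_univ v)
    have hfc : f = C (coeff 0 f) := by
      ext m'
      rw [coeff_C]
      by_cases h3 : 0 = m'
      · rw [if_pos h3, ← h3]
      · rw [if_neg h3]
        by_contra h4
        exact h3 (hm0 m' h4).symm
    rw [hfc, eval_C] at h0
    have h5 := hm0 m hm
    rw [h5] at hm
    exact hm h0
  · have hone : ∑ i, d i = 1 := by omega
    rw [hone] at ht
    obtain ⟨v, hv⟩ : ∃ v, m v ≠ 0 := by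
      by_contra hcon
      push Not at hcon
      rw [Finset.sum_eq_zero fun v _ => hcon v] at ht
      omega
    have hms : m = Finsupp.single v 1 := by
      rw [← Finset.add_sum_erase Finset.univ _ (Finset.mem_univ v)] at ht
      have h2 : ∑ w ∈ Finset.univ.erase v, m w = 0 := by omega
      have h3 : m v = 1 := by omega
      ext w
      by_cases hw : w = v
      · subst hw
        simp [h3]
      · rw [(Finset.sum_eq_zero_iff.1 h2) w (Finset.mem_erase.2 ⟨hw, Finset.mem_univ w⟩),
          Finsupp.single_apply, if_neg (Ne.symm hw)]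
    have hpd : pderiv v f = C (coeff m f) := by
      ext m'
      rw [coeff_pderiv, coeff_C]
      by_cases h3 : 0 = m'
      · rw [if_pos h3, ← h3]
        simp [hms]
      · rw [if_neg h3]
        have h4 : coeff (m' + Finsupp.single v 1) f = 0 := by
          by_contra h5
          have h6 := Z0_tot hf h5
          rw [hone] at h6
          simp only [Finsupp.add_apply, Finset.sum_add_distrib] at h6
          have h7 : ∑ w, (Finsupp.single v 1 : Var n →₀ ℕ) w = 1 := by
            rw [Finset.sum_eq_single v]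
            · simp
            · intro w _ hw
              rw [Finsupp.single_apply, if_neg (Ne.symm hw)]
            · intro h
              exact absurd (Finset.mem_univ v) h
          have h8 : ∑ w, m' w = 0 := by omega
          apply h3
          ext w
          exact ((Finset.sum_eq_zero_iff.1 h8) w (Finset.mem_univ w)).symm
        rw [h4, zero_mul]
    have h9 := h1 v
    rw [hpd, eval_C] at h9
    exact hm h9

theorem Z0 (hRKU : RKU_stmt) (hEUL : EUL_stmt) (hMHS : MHS_stmt) (hDIM : DIM_stmt) : Z0_stmt := by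
  classical
  intro k n d hn hz
  obtain ⟨iz, hiz⟩ := hz
  have hdim := Z0_dim hDIM hMHS k n d
  constructor
  · intro hS
    by_contra hlt
    have hle : ∑ i, d i ≤ 1 := by omega
    obtain ⟨r, hr, hG⟩ := hS
    apply hG
    refine ⟨1, one_ne_zero, fun p _ _ => ?_⟩
    unfold Independent
    have hSys : Sys n d p = ⊥ := by
      rw [eq_bot_iff]
      intro f hf
      unfold Sys at hf
      rw [Submodule.mem_inf, Submodule.mem_iInf] at hf
      have h1 := hf.2 ⟨0, hr⟩
      have h2 : f = 0 := Z0_small hle hf.1 (p ⟨0, hr⟩) h1.1 h1.2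
      rw [h2]
      exact Submodule.zero_mem _
    rw [hSys, finrank_bot, hdim]
    symm
    rw [Nat.sub_eq_zero_iff_le]
    have h3 : ∏ i, Nat.multichoose (n i + 1) (d i) ≤ ∑ i, n i + 1 := by
      by_cases hall : ∀ i, d i = 0
      · rw [Finset.prod_eq_one fun i _ => by rw [hall i]; simp]
        omega
      · push Not at hall
        obtain ⟨j, hj⟩ := hall
        rw [← Finset.add_sum_erase Finset.univ d (Finset.mem_univ j)] at hle
        have h4 : ∑ i ∈ Finset.univ.erase j, d i = 0 := by omega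
        have h5 : d j = 1 := by omega
        rw [Finset.prod_eq_single j]
        · rw [h5, Nat.multichoose_one_right]
          have := Finset.single_le_sum (f := n) (fun i _ => Nat.zero_le _) (Finset.mem_univ j)
          omega
        · intro i _ hi
          rw [(Finset.sum_eq_zero_iff.1 h4) i (Finset.mem_erase.2 ⟨hi, Finset.mem_univ i⟩)]
          simp
        · intro h
          exact absurd (Finset.mem_univ j) h
    exact le_trans h3 (Nat.le_mul_of_pos_left _ hr)
  · intro h2
    obtain ⟨i0, hi0⟩ : ∃ i, 1 ≤ d i := by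
      by_contra hcon
      push Not at hcon
      have : ∑ i, d i = 0 := Finset.sum_eq_zero fun i _ => by have := hcon i; omega
      omega
    refine ⟨1, le_refl _, ?_⟩
    rintro ⟨F, hF, hG⟩
    have hprod : F * ∏ v : Fin 1 × Var n, X v ≠ 0 := by
      refine mul_ne_zero hF ?_
      rw [Finset.prod_ne_zero_iff]
      intro v _
      exact X_ne_zero v
    obtain ⟨y, hy⟩ : ∃ y : Fin 1 × Var n → ℂ, eval y (F * ∏ v : Fin 1 × Var n, X v) ≠ 0 := by
      by_contra hcon
      push Not at hcon
      apply hprod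
      refine MvPolynomial.funext fun x => ?_
      rw [hcon x, map_zero]
    rw [map_mul, map_prod] at hy
    have hy1 := left_ne_zero_of_mul hy
    have hy2 := right_ne_zero_of_mul hy
    rw [Finset.prod_ne_zero_iff] at hy2
    have hI := hG (fun l v => y (l, v)) (fun l i => ⟨0, by
      have := hy2 (l, ⟨i, 0⟩) (Finset.mem_univ _)
      rwa [eval_X] at this⟩) hy1
    unfold Independent at hI
    have hlow := Z0_low hRKU hEUL hMHS k n d i0 hi0 1 (fun l v => y (l, v))
    rw [Z0_Dk] at hlow
    have hbig := Z0_big n d hn i0 hi0 h2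
    rw [← hdim] at hbig
    have hsum : ∑ i ∈ Finset.univ.filter (fun i => 1 ≤ d i), n i + n iz ≤ ∑ i, n i := by
      rw [Finset.sum_filter, ← Finset.add_sum_erase Finset.univ n (Finset.mem_univ iz),
        ← Finset.add_sum_erase Finset.univ (fun i => if 1 ≤ d i then n i else 0)
          (Finset.mem_univ iz)]
      have h3 : ∑ i ∈ Finset.univ.erase iz, (if 1 ≤ d i then n i else 0) ≤
          ∑ i ∈ Finset.univ.erase iz, n i := by
        refine Finset.sum_le_sum fun i _ => ?_
        split
        · exact le_refl _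
        · omega
      have h4 : (if 1 ≤ d iz then n iz else 0) = 0 := by
        rw [if_neg (by omega)]
      simp only [h4]
      omega
    have hnz := hn iz
    omega

end Pool.Agent.SV
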